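import Pool.Agent.H71.PX.Targets

/-!
# Row TP: transport to another set (helper63)
-/

set_option autoImplicit false

namespace Pool.Agent.H63.PX

open Pool.Agent.H71.PX

theorem pf_TP : T_TP := by
  intro α β Q f m U Hh Vv h
  refine ⟨{
    N := fun x => m.N (f.symm x)
    C := fun x => m.C (f.symm x)
    Zr := fun x => m.Zr (f.symm x)
    Tp := fun x => m.Tp (f.symm x)
    Z2 := fun x => m.Z2 (f.symm x)
    SD := fun x => m.SD (f.symm x)
    Lt := fun x y => m.Lt (f.symm x) (f.symm y)
    S := fun x y => m.S (f.symm x) (f.symm y)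
    P := fun a x y => m.P a (f.symm x) (f.symm y)
    L := fun a x y => m.L a (f.symm x) (f.symm y)
    R := fun a x y => m.R a (f.symm x) (f.symm y)
    Pd := fun x y => m.Pd (f.symm x) (f.symm y)
    A := fun x y => m.A (f.symm x) (f.symm y)
    K := fun x y => m.K (f.symm x) (f.symm y)
    B := fun x y => m.B (f.symm x) (f.symm y)
    E := fun x y => m.E (f.symm x) (f.symm y)
    F := fun a x y => m.F a (f.symm x) (f.symm y)
    T := fun q x y => m.T q (f.symm x) (f.symm y)
    U1 := fun q x => m.U1 q (f.symm x)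
    U2 := fun q x => m.U2 q (f.symm x) }, ?_⟩
  intro x y
  obtain ⟨z, hz⟩ := h (f.symm x) (f.symm y)
  refine ⟨f z, ?_⟩
  simpa only [Un, UnN, UnP, UnC, Tk, TkE, TkN, TkP, TkC, TkG, TkCC, TkGG, St.cl, St.gp, St.Cb,
    St.Sep, Equiv.symm_apply_apply, ne_eq, Equiv.eq_symm_apply, Equiv.apply_symm_apply] using hz

end Pool.Agent.H63.PX
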